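import Pool.Agent.N31.LC.Lat

/-!
LC6a: the triples `(d, e, n)` with `d e = n^2 + t n + c`, `gcd(d, e, 2 n + t) = 1`, and the bases of
finitely many ideals.
-/

set_option autoImplicit false

namespace Pool.Agent.N31.LC

open Finset
open Pool.Agent.W78.GA
open Pool.Agent.N912.LC
open Pool.Agent.N912.ED.W78EG (pp uc)

variable {t c : ℤ}

/-! ### one ideal in every class -/

theorem exists_W (hD : t ^ 2 < 4 * c) {M : ℕ} (hM : 1 ≤ M) :
    ∃ W : Finset (ℕ × ℤ), (∀ x ∈ W, Iv t c x.1 x.2 ∧ Nat.Coprime x.1 M) ∧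
      (∀ f, Gd t c f → ∃ x ∈ W, Eqv (Fx t c x) f) ∧
      ∀ x ∈ W, ∀ x' ∈ W, Eqv (Fx t c x) (Fx t c x') → x = x' := by
  classical
  letI : Setoid Fm := stf
  set N : ℕ := (4 * c - t ^ 2).toNat with hN
  have hNz : (N : ℤ) = 4 * c - t ^ 2 := Int.toNat_of_nonneg (by linarith)
  set Om : Finset (ℕ × ℤ) := (range (N + 1) ×ˢ Icc (-(|t| + N : ℤ)) (|t| + N)).filter
    (fun x => Iv t c x.1 x.2) with hOm
  set Cl : Finset (Quotient (stf)) := Om.image (fun x => (⟦Fx t c x⟧ : Quotient stf)) with hCl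
  have hP : ∀ q ∈ Cl, ∃ x : ℕ × ℤ, (Iv t c x.1 x.2 ∧ Nat.Coprime x.1 M) ∧
      (⟦Fx t c x⟧ : Quotient stf) = q := by
    intro q hq
    rw [hCl, mem_image] at hq
    obtain ⟨x, hx, rfl⟩ := hq
    rw [hOm, mem_filter] at hx
    obtain ⟨g, hg1, hg2, hg3⟩ := exists_coprime (Fx_gd hx.2) hD hM
    obtain ⟨y, hy1, hy2⟩ := exists_x hg2
    refine ⟨y, ⟨hy1, ?_⟩, ?_⟩
    · have : g.1 = y.1 := by rw [← hy2]; rfl
      rw [this] at hg3
      simpa using hg3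
    · apply Quotient.sound
      show Eqv (Fx t c y) (Fx t c x)
      rw [hy2]
      exact hg1.symm
  set rep : Quotient stf → ℕ × ℤ := fun q => if h : ∃ x : ℕ × ℤ,
    (Iv t c x.1 x.2 ∧ Nat.Coprime x.1 M) ∧ (⟦Fx t c x⟧ : Quotient stf) = q then h.choose
    else (0, 0) with hrep
  have hrep' : ∀ q ∈ Cl, (Iv t c (rep q).1 (rep q).2 ∧ Nat.Coprime (rep q).1 M) ∧
      (⟦Fx t c (rep q)⟧ : Quotient stf) = q := by
    intro q hq
    have h := hP q hq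
    have e : rep q = h.choose := by rw [hrep]; exact dif_pos h
    rw [e]
    exact h.choose_spec
  refine ⟨Cl.image rep, ?_, ?_, ?_⟩
  · intro x hx
    rw [mem_image] at hx
    obtain ⟨q, hq, rfl⟩ := hx
    exact (hrep' q hq).1
  · intro f hf
    obtain ⟨g, hg1, hg2, hg3, hg4⟩ := exists_red hD f.1.toNat f hf
      (by rw [Int.toNat_of_nonneg hf.pos.le])
    have hb := red_bound hg2 hg3 hg4
    obtain ⟨y, hy1, hy2⟩ := exists_x hg2
    have hyg : (y.1 : ℤ) = g.1 := by rw [← hy2]; rfl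
    have hyB : t - 2 * y.2 = g.2.1 := by rw [← hy2]; rfl
    have hyO : y ∈ Om := by
      rw [hOm, mem_filter, mem_product, mem_range, mem_Icc]
      have h5 := abs_le.1 hg3
      have h6 := neg_abs_le t
      have h7 := le_abs_self t
      refine ⟨⟨?_, ?_, ?_⟩, hy1⟩
      · have : (y.1 : ℤ) < N + 1 := by rw [hyg, hNz]; linarith
        exact_mod_cast this
      · rw [hNz]; omega
      · rw [hNz]; omega
    have hyC : (⟦Fx t c y⟧ : Quotient stf) ∈ Cl := by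
      rw [hCl]; exact mem_image_of_mem _ hyO
    refine ⟨rep ⟦Fx t c y⟧, mem_image_of_mem _ hyC, ?_⟩
    have h1 := (hrep' _ hyC).2
    have h2 : Eqv (Fx t c (rep ⟦Fx t c y⟧)) (Fx t c y) := Quotient.exact h1
    rw [hy2] at h2 ⊢
    exact h2.trans hg1.symm
  · intro x hx x' hx' h
    rw [mem_image] at hx hx'
    obtain ⟨q, hq, rfl⟩ := hx
    obtain ⟨q', hq', rfl⟩ := hx'
    have h1 : (⟦Fx t c (rep q)⟧ : Quotient stf) = ⟦Fx t c (rep q')⟧ := Quotient.sound h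
    rw [(hrep' q hq).2, (hrep' q' hq').2] at h1
    rw [h1]

/-! ### one ideal -/

open scoped Classical in
/-- the bases with `pp > 0` -/
noncomputable def SL (t c : ℤ) (x : ℕ × ℤ) (X : ℝ) : Finset (Qd t c × Qd t c) :=
  (DL t c x.1 x.2 X).filter (fun e => 0 < pp e.1 e.2)

/-- the triple of a basis -/
def Ph (x : ℕ × ℤ) (e : Qd t c × Qd t c) : ℕ × ℕ × ℕ :=
  (nm e.1 / x.1, nm e.2 / x.1, (ip e.1 e.2 / x.1).toNat)

lemma mem_SL (hD : t ^ 2 < 4 * c) {x : ℕ × ℤ} {X : ℝ} {e : Qd t c × Qd t c} :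
    e ∈ SL t c x X ↔ ((1 ≤ nm e.1 ∧ (nm e.1 : ℝ) ≤ x.1 * X) ∧
      (1 ≤ nm e.2 ∧ (nm e.2 : ℝ) ≤ x.1 * X)) ∧ (lat x.1 x.2 e.1 ∧ lat x.1 x.2 e.2 ∧
      dt e.1 e.2 = x.1) ∧ 0 < pp e.1 e.2 := by
  classical
  unfold SL DL
  rw [mem_filter, mem_filter, mem_product, mem_ball hD, mem_ball hD]
  tauto

lemma SL_data (ht : t = 0 ∨ t = 1) (hD : t ^ 2 < 4 * c) {x : ℕ × ℤ} (h : Iv t c x.1 x.2) {X : ℝ}
    {e : Qd t c × Qd t c} (he : e ∈ SL t c x X) :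
    ∃ d e' n : ℕ, nm e.1 = x.1 * d ∧ nm e.2 = x.1 * e' ∧ ip e.1 e.2 = x.1 * n ∧
      0 < 2 * (n : ℤ) + t ∧ Ph x e = (d, e', n) := by
  rw [mem_SL hD] at he
  obtain ⟨⟨h1, h2⟩, ⟨h3, h4, h5⟩, h6⟩ := he
  have hm : (0 : ℤ) < x.1 := by exact_mod_cast h.pos
  have hmn : 0 < x.1 := h.pos
  obtain ⟨d, hd⟩ : x.1 ∣ nm e.1 := by
    have := ip_dvd h.dvd h3 h3
    rw [← nm_ip hD] at this
    exact_mod_cast this
  obtain ⟨e', he'⟩ : x.1 ∣ nm e.2 := by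
    have := ip_dvd h.dvd h4 h4
    rw [← nm_ip hD] at this
    exact_mod_cast this
  obtain ⟨n, hn⟩ := ip_dvd h.dvd h3 h4
  have h7 : 0 < 2 * n + t := by
    unfold pp at h6
    rw [hn, h5] at h6
    by_contra hc
    rw [not_lt] at hc
    have : 2 * ((x.1 : ℤ) * n) + t * x.1 = x.1 * (2 * n + t) := by ring
    rw [this] at h6
    nlinarith
  have hn0 : 0 ≤ n := by
    rcases ht with rfl | rfl <;> omega
  obtain ⟨k, rfl⟩ := Int.eq_ofNat_of_zero_le hn0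
  refine ⟨d, e', k, hd, he', hn, h7, ?_⟩
  unfold Ph
  rw [hd, he', hn, Nat.mul_div_cancel_left _ hmn, Nat.mul_div_cancel_left _ hmn,
    Int.mul_ediv_cancel_left _ hm.ne', Int.toNat_natCast]

/-- the form of a triple -/
def Fy (t : ℤ) (y : ℕ × ℕ × ℕ) : Fm := ((y.1 : ℤ), 2 * (y.2.2 : ℤ) + t, (y.2.1 : ℤ))

lemma Ph_eqv (ht : t = 0 ∨ t = 1) (hD : t ^ 2 < 4 * c) {x : ℕ × ℤ} (h : Iv t c x.1 x.2) {X : ℝ}
    {e : Qd t c × Qd t c} (he : e ∈ SL t c x X) : Eqv (Fx t c x) (Fy t (Ph x e)) := by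
  obtain ⟨d, e', n, h1, h2, h3, h4, h5⟩ := SL_data ht hD h he
  rw [mem_SL hD] at he
  rw [h5]
  exact toForm hD h he.2.1.1 he.2.1.2.1 he.2.1.2.2 h1 h2 h3

lemma maps (ht : t = 0 ∨ t = 1) (hD : t ^ 2 < 4 * c) {x : ℕ × ℤ} (h : Iv t c x.1 x.2) {X : ℝ}
    {e : Qd t c × Qd t c} (he : e ∈ SL t c x X) : Ph x e ∈ TP1 t c X := by
  classical
  have hE := Ph_eqv ht hD h he
  obtain ⟨d, e', n, h1, h2, h3, h4, h5⟩ := SL_data ht hD h he
  rw [mem_SL hD] at he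
  obtain ⟨⟨⟨k1, k2⟩, ⟨k3, k4⟩⟩, -, -⟩ := he
  have hgd := hE.gd hD (Fx_gd h)
  rw [h5] at hgd ⊢
  have hm : (0 : ℝ) < x.1 := by exact_mod_cast h.pos
  have hd1 : 1 ≤ d := by
    rcases Nat.eq_zero_or_pos d with hd | hd
    · rw [hd, mul_zero] at h1; omega
    · exact hd
  have he1 : 1 ≤ e' := by
    rcases Nat.eq_zero_or_pos e' with hd | hd
    · rw [hd, mul_zero] at h2; omega
    · exact hd
  have hdX : d ≤ ⌊X⌋₊ := by
    apply Nat.le_floor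
    rw [h1] at k2
    push_cast at k2
    exact le_of_mul_le_mul_left k2 hm
  have heX : e' ≤ ⌊X⌋₊ := by
    apply Nat.le_floor
    rw [h2] at k4
    push_cast at k4
    exact le_of_mul_le_mul_left k4 hm
  have hdisc : (d : ℤ) * e' = (n : ℤ) ^ 2 + t * n + c := by
    have := hgd.disc
    simp only [Fy] at this
    linarith
  have hnX : n ≤ ⌊X⌋₊ := by
    by_contra hc
    rw [not_le] at hc
    have g1 : (d : ℤ) * e' ≤ (⌊X⌋₊ : ℤ) * ⌊X⌋₊ := by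
      exact_mod_cast Nat.mul_le_mul hdX heX
    have g2 : (⌊X⌋₊ : ℤ) < n := by exact_mod_cast hc
    have g3 : (0 : ℤ) ≤ ⌊X⌋₊ := by positivity
    have g4 : 0 ≤ t * (n : ℤ) := by rcases ht with rfl | rfl <;> simp
    have g5 : 0 < c := by nlinarith [sq_nonneg t]
    nlinarith
  unfold TP1 TP
  rw [mem_filter, mem_filter, mem_product, mem_product, mem_Icc, mem_Icc, mem_range]
  refine ⟨⟨⟨⟨hd1, hdX⟩, ⟨he1, heX⟩, by simp only; omega⟩, hdisc, h4⟩, ?_⟩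
  intro g g1 g2 g3
  exact hgd.pf g g1 g2 g3

lemma mem_TP1 {X : ℝ} {y : ℕ × ℕ × ℕ} (hy : y ∈ TP1 t c X) :
    1 ≤ y.1 ∧ 1 ≤ y.2.1 ∧ (y.1 : ℝ) ≤ X ∧ (y.2.1 : ℝ) ≤ X ∧ 0 < 2 * (y.2.2 : ℤ) + t ∧
      Gd t c (Fy t y) := by
  classical
  unfold TP1 TP at hy
  rw [mem_filter, mem_filter, mem_product, mem_product, mem_Icc, mem_Icc, mem_range] at hy
  obtain ⟨⟨⟨⟨h1, h2⟩, ⟨h3, h4⟩, -⟩, h5, h6⟩, h7⟩ := hy
  refine ⟨h1, h3, (Nat.le_floor_iff' (by omega)).1 h2, (Nat.le_floor_iff' (by omega)).1 h4, h6,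
    ⟨?_, ?_, ?_⟩⟩
  · show (0 : ℤ) < y.1
    exact_mod_cast h1
  · simp only [Fy]
    linear_combination -4 * h5
  · exact fun g g1 g2 g3 => h7 g g1 g2 g3

lemma star_cancel (hD : t ^ 2 < 4 * c) {v ε ε' : Qd t c} (hv : 1 ≤ nm v) (h : ε * v = ε' * v) :
    ε = ε' := by
  apply nat_cancel hv
  rw [← star_mul_self' hD v]
  linear_combination star v * h

open scoped Classical in
lemma card_fib (ht : t = 0 ∨ t = 1) (hD : t ^ 2 < 4 * c) {x : ℕ × ℤ} (h : Iv t c x.1 x.2) {X : ℝ}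
    {y : ℕ × ℕ × ℕ} (hy : y ∈ TP1 t c X) (hE : Eqv (Fx t c x) (Fy t y)) :
    ((SL t c x X).filter (fun e => Ph x e = y)).card = uc t c := by
  obtain ⟨y1, y2, y3, y4, y5, y6⟩ := mem_TP1 hy
  obtain ⟨v0, w0, hv0, hw0, q1, q2, q3, q4⟩ := ofForm hD h hE
  have hm : (0 : ℝ) < x.1 := by exact_mod_cast h.pos
  have hmz : (0 : ℤ) < x.1 := by exact_mod_cast h.pos
  have hmn : 0 < x.1 := h.pos
  have hv1 : 1 ≤ nm v0 := by rw [q2]; exact Nat.mul_pos hmn y1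
  have hw1 : 1 ≤ nm w0 := by rw [q3]; exact Nat.mul_pos hmn y2
  have key : (SL t c x X).filter (fun e => Ph x e = y) =
      (ball t c 1).image (fun ε => (ε * v0, ε * w0)) := by
    ext ⟨v, w⟩
    rw [mem_filter, mem_image]
    constructor
    · rintro ⟨he, hPh⟩
      obtain ⟨d, e', n, h1, h2, h3, h4, h5⟩ := SL_data ht hD h he
      rw [hPh] at h5
      rw [mem_SL hD] at he
      obtain ⟨-, ⟨g1, g2, g3⟩, -⟩ := he
      subst h5
      simp only at h1 h2 h3 g1 g2 g3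
      obtain ⟨ε, e1, e2, e3⟩ := exists_unit hD hmn h.dvd g1 g2 hv0 hw0
        (fun g k1 k2 k3 => y6.pf g k1 k2 k3) y1 g3 q1 h3 q4 h1 q2 h2 q3
      refine ⟨ε, ?_, ?_⟩
      · rw [mem_ball hD, e1]
        norm_num
      · rw [← e2, ← e3]
    · rintro ⟨ε, hε, heq⟩
      rw [mem_ball hD] at hε
      have hε1 : nm ε = 1 := by
        have : nm ε ≤ 1 := by exact_mod_cast hε.2
        omega
      rw [Prod.mk.injEq] at heq
      obtain ⟨rfl, rfl⟩ := heq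
      have e1 : nm (ε * v0) = x.1 * y.1 := by rw [nm_mul, hε1, one_mul, q2]
      have e2 : nm (ε * w0) = x.1 * y.2.1 := by rw [nm_mul, hε1, one_mul, q3]
      have e3 : dt (ε * v0) (ε * w0) = x.1 := by rw [dt_mul hD, hε1, q1]; simp
      have e4 : ip (ε * v0) (ε * w0) = x.1 * (y.2.2 : ℤ) := by rw [ip_mul hD, hε1, q4]; simp
      refine ⟨?_, ?_⟩
      · rw [mem_SL hD]
        refine ⟨⟨⟨?_, ?_⟩, ⟨?_, ?_⟩⟩, ⟨lat_mul h.dvd ε hv0, lat_mul h.dvd ε hw0, e3⟩, ?_⟩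
        · simp only; rw [e1]; exact Nat.mul_pos hmn y1
        · simp only; rw [e1]; push_cast; exact mul_le_mul_of_nonneg_left y3 hm.le
        · simp only; rw [e2]; exact Nat.mul_pos hmn y2
        · simp only; rw [e2]; push_cast; exact mul_le_mul_of_nonneg_left y4 hm.le
        · unfold pp
          simp only
          rw [e3, e4]
          have : 2 * ((x.1 : ℤ) * y.2.2) + t * x.1 = x.1 * (2 * (y.2.2 : ℤ) + t) := by ring
          rw [this]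
          exact mul_pos hmz y5
      · unfold Ph
        simp only
        rw [e1, e2, e4, Nat.mul_div_cancel_left _ hmn, Nat.mul_div_cancel_left _ hmn,
          Int.mul_ediv_cancel_left _ hmz.ne', Int.toNat_natCast]
  rw [key, card_image_of_injOn]
  · rfl
  · intro ε _ ε' _ heq
    simp only [Prod.mk.injEq] at heq
    exact star_cancel hD hv1 heq.1

open scoped Classical in
lemma card_fib0 (ht : t = 0 ∨ t = 1) (hD : t ^ 2 < 4 * c) {x : ℕ × ℤ} (h : Iv t c x.1 x.2) {X : ℝ}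
    {y : ℕ × ℕ × ℕ} (hE : ¬ Eqv (Fx t c x) (Fy t y)) :
    ((SL t c x X).filter (fun e => Ph x e = y)).card = 0 := by
  rw [card_eq_zero, filter_eq_empty_iff]
  intro e he hPh
  apply hE
  rw [← hPh]
  exact Ph_eqv ht hD h he

/-- **LC6a** -/
theorem lc6a : S_LC6a := by
  classical
  intro t c ht hD M hM
  obtain ⟨W, hW1, hW2, hW3⟩ := exists_W hD hM
  refine ⟨W, hW1, fun X G => ?_⟩
  have h1 : ∀ x ∈ W, ∑ e ∈ (DL t c x.1 x.2 X).filter (fun e => 0 < pp e.1 e.2),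
      G (nm e.1 / x.1) (nm e.2 / x.1) (ip e.1 e.2 / x.1).toNat =
      ∑ y ∈ TP1 t c X, (((SL t c x X).filter (fun e => Ph x e = y)).card : ℂ) *
        G y.1 y.2.1 y.2.2 := by
    intro x hx
    have h2 : ∑ e ∈ (DL t c x.1 x.2 X).filter (fun e => 0 < pp e.1 e.2),
        G (nm e.1 / x.1) (nm e.2 / x.1) (ip e.1 e.2 / x.1).toNat =
        ∑ e ∈ SL t c x X, G (Ph x e).1 (Ph x e).2.1 (Ph x e).2.2 := by
      unfold SL
      refine sum_congr ?_ fun e _ => rfl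
      congr
    rw [h2, ← sum_fiberwise_of_maps_to (fun e he => maps ht hD (hW1 x hx).1 he)]
    refine sum_congr rfl fun y _ => ?_
    rw [sum_congr rfl (g := fun _ => G y.1 y.2.1 y.2.2) (fun e he => by
      rw [mem_filter] at he
      rw [he.2])]
    rw [sum_const, nsmul_eq_mul]
  rw [sum_congr rfl h1, sum_comm, mul_sum]
  refine sum_congr rfl fun y hy => ?_
  rw [← sum_mul]
  congr 1
  obtain ⟨x, hx, hxE⟩ := hW2 (Fy t y) (mem_TP1 hy).2.2.2.2.2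
  rw [sum_eq_single x]
  · rw [card_fib ht hD (hW1 x hx).1 hy hxE]
  · intro x' hx' hne
    rw [card_fib0 ht hD (hW1 x' hx').1, Nat.cast_zero]
    intro hE
    exact hne (hW3 x' hx' x hx (hE.trans hxE.symm))
  · intro h
    exact absurd hx h

end Pool.Agent.N31.LC
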