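import Mathlib

/-!
LC6a: integral binary quadratic forms of a given negative discriminant: equivalence, finitely many
classes, forms representing numbers prime to a given one.
-/

set_option autoImplicit false

namespace Pool.Agent.N31.LC

/-- binary quadratic forms `A x^2 + B x y + C y^2` -/
abbrev Fm := ℤ × ℤ × ℤ

/-- the form in the basis `(a, b), (c, d)` -/
def act (a b c d : ℤ) (f : Fm) : Fm :=
  (f.1 * a ^ 2 + f.2.1 * (a * b) + f.2.2 * b ^ 2,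
   2 * f.1 * (a * c) + f.2.1 * (a * d + b * c) + 2 * f.2.2 * (b * d),
   f.1 * c ^ 2 + f.2.1 * (c * d) + f.2.2 * d ^ 2)

/-- proper equivalence -/
def Eqv (f g : Fm) : Prop := ∃ a b c d : ℤ, a * d - b * c = 1 ∧ g = act a b c d f

lemma fm_ext {f g : Fm} (h1 : f.1 = g.1) (h2 : f.2.1 = g.2.1) (h3 : f.2.2 = g.2.2) : f = g := by
  obtain ⟨a, b, c⟩ := f
  obtain ⟨a', b', c'⟩ := g
  simp only at h1 h2 h3
  rw [h1, h2, h3]

lemma Eqv.refl (f : Fm) : Eqv f f :=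
  ⟨1, 0, 0, 1, by norm_num, fm_ext (by simp [act]) (by simp [act]) (by simp [act])⟩

lemma Eqv.symm {f g : Fm} (h : Eqv f g) : Eqv g f := by
  obtain ⟨a, b, c, d, h1, rfl⟩ := h
  refine ⟨d, -b, -c, a, by linarith, fm_ext ?_ ?_ ?_⟩
  · simp only [act]
    linear_combination (-f.1 * (a * d - b * c + 1)) * h1
  · simp only [act]
    linear_combination (-f.2.1 * (a * d - b * c + 1)) * h1
  · simp only [act]
    linear_combination (-f.2.2 * (a * d - b * c + 1)) * h1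

lemma Eqv.trans {f g k : Fm} (h : Eqv f g) (h' : Eqv g k) : Eqv f k := by
  obtain ⟨a, b, c, d, h1, rfl⟩ := h
  obtain ⟨a', b', c', d', h2, rfl⟩ := h'
  refine ⟨a' * a + b' * c, a' * b + b' * d, c' * a + d' * c, c' * b + d' * d, ?_,
    fm_ext ?_ ?_ ?_⟩
  · have : (a' * a + b' * c) * (c' * b + d' * d) - (a' * b + b' * d) * (c' * a + d' * c) =
      (a' * d' - b' * c') * (a * d - b * c) := by ring
    rw [this, h1, h2, one_mul]
  · simp only [act]; ring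
  · simp only [act]; ring
  · simp only [act]; ring

/-- the setoid -/
def stf : Setoid Fm := ⟨Eqv, Eqv.refl, Eqv.symm, Eqv.trans⟩

lemma Eqv.disc {f g : Fm} (h : Eqv f g) :
    g.2.1 ^ 2 - 4 * g.1 * g.2.2 = f.2.1 ^ 2 - 4 * f.1 * f.2.2 := by
  obtain ⟨a, b, c, d, h1, rfl⟩ := h
  simp only [act]
  linear_combination ((f.2.1 ^ 2 - 4 * f.1 * f.2.2) * (a * d - b * c + 1)) * h1

/-- primitive forms -/
def Pf (f : Fm) : Prop := ∀ g : ℤ, g ∣ f.1 → g ∣ f.2.2 → g ∣ f.2.1 → IsUnit g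

lemma dvd_act {k a b c d : ℤ} {f : Fm} (h1 : k ∣ f.1) (h2 : k ∣ f.2.2) (h3 : k ∣ f.2.1) :
    k ∣ (act a b c d f).1 ∧ k ∣ (act a b c d f).2.2 ∧ k ∣ (act a b c d f).2.1 := by
  simp only [act]
  refine ⟨?_, ?_, ?_⟩
  · exact dvd_add (dvd_add (h1.mul_right _) (h3.mul_right _)) (h2.mul_right _)
  · exact dvd_add (dvd_add (h1.mul_right _) (h3.mul_right _)) (h2.mul_right _)
  · exact dvd_add (dvd_add ((h1.mul_left _).mul_right _) (h3.mul_right _))
      ((h2.mul_left _).mul_right _)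

lemma Eqv.pf {f g : Fm} (h : Eqv f g) (hf : Pf f) : Pf g := by
  intro k h1 h2 h3
  obtain ⟨a, b, c, d, -, rfl⟩ := h.symm
  obtain ⟨e1, e2, e3⟩ := dvd_act (a := a) (b := b) (c := c) (d := d) h1 h2 h3
  exact hf k e1 e2 e3

variable {t c : ℤ}

/-- positive primitive forms of discriminant `t^2 - 4 c` -/
structure Gd (t c : ℤ) (f : Fm) : Prop where
  pos : 0 < f.1
  disc : f.2.1 ^ 2 - 4 * f.1 * f.2.2 = t ^ 2 - 4 * c
  pf : Pf f

lemma val_pos {f : Fm} (hD : t ^ 2 < 4 * c) (hf : Gd t c f) {a b : ℤ} (hab : ¬ (a = 0 ∧ b = 0)) :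
    0 < f.1 * a ^ 2 + f.2.1 * (a * b) + f.2.2 * b ^ 2 := by
  have e : 4 * f.1 * (f.1 * a ^ 2 + f.2.1 * (a * b) + f.2.2 * b ^ 2) =
      (2 * f.1 * a + f.2.1 * b) ^ 2 + (4 * c - t ^ 2) * b ^ 2 := by
    have := hf.disc
    linear_combination (- b ^ 2) * this
  have hp := hf.pos
  by_cases hb : b = 0
  · subst hb
    have ha : a ≠ 0 := fun h => hab ⟨h, rfl⟩
    have : 0 < a ^ 2 := by positivity
    have h1 : f.1 * a ^ 2 + f.2.1 * (a * 0) + f.2.2 * 0 ^ 2 = f.1 * a ^ 2 := by ring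
    rw [h1]
    exact mul_pos hp this
  · have h1 : 0 < b ^ 2 := by positivity
    have h2 : 0 < (4 * c - t ^ 2) * b ^ 2 := mul_pos (by linarith) h1
    have h3 : 0 < 4 * f.1 * (f.1 * a ^ 2 + f.2.1 * (a * b) + f.2.2 * b ^ 2) := by
      rw [e]
      nlinarith [sq_nonneg (2 * f.1 * a + f.2.1 * b)]
    by_contra hc
    rw [not_lt] at hc
    nlinarith

lemma Eqv.gd {f g : Fm} (hD : t ^ 2 < 4 * c) (h : Eqv f g) (hf : Gd t c f) : Gd t c g := by
  refine ⟨?_, by rw [h.disc, hf.disc], h.pf hf.pf⟩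
  obtain ⟨a, b, c, d, h1, rfl⟩ := h
  simp only [act]
  apply val_pos hD hf
  rintro ⟨rfl, rfl⟩
  simp at h1

/-- reduction -/
lemma exists_red (hD : t ^ 2 < 4 * c) (N : ℕ) : ∀ f : Fm, Gd t c f → f.1 ≤ N →
    ∃ g, Eqv f g ∧ Gd t c g ∧ |g.2.1| ≤ g.1 ∧ g.1 ≤ g.2.2 := by
  induction N with
  | zero =>
    intro f hf h
    have := hf.pos
    push_cast at h
    omega
  | succ N ih =>
    intro f hf hfN
    have hp := hf.pos
    set q := (f.2.1 + f.1) / (2 * f.1) with hq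
    have h2A : 0 < 2 * f.1 := by linarith
    have e1 := Int.emod_add_mul_ediv (f.2.1 + f.1) (2 * f.1)
    rw [← hq] at e1
    have e2 := Int.emod_nonneg (f.2.1 + f.1) h2A.ne'
    have e3 := Int.emod_lt_of_pos (f.2.1 + f.1) h2A
    set g : Fm := act 1 0 (-q) 1 f with hg
    have hfg : Eqv f g := ⟨1, 0, -q, 1, by norm_num, rfl⟩
    have hgd := hfg.gd hD hf
    have g1 : g.1 = f.1 := by simp [hg, act]
    have g2 : g.2.1 = f.2.1 - 2 * f.1 * q := by simp only [hg, act]; ring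
    have g3 : |g.2.1| ≤ g.1 := by
      rw [g1, g2, abs_le]
      constructor <;> linarith
    rcases le_or_gt g.1 g.2.2 with h | h
    · exact ⟨g, hfg, hgd, g3, h⟩
    · have hgk : Eqv g (act 0 1 (-1) 0 g) := ⟨0, 1, -1, 0, by norm_num, rfl⟩
      have k1 : (act 0 1 (-1) 0 g).1 = g.2.2 := by simp [act]
      obtain ⟨k, hk1, hk2⟩ := ih _ (hgk.gd hD hgd) (by
        rw [k1]
        push_cast at hfN
        linarith)
      exact ⟨k, hfg.trans (hgk.trans hk1), hk2⟩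

lemma red_bound {g : Fm} (hg : Gd t c g) (h1 : |g.2.1| ≤ g.1) (h2 : g.1 ≤ g.2.2) :
    g.1 ≤ 4 * c - t ^ 2 := by
  have hp := hg.pos
  have hd := hg.disc
  have h3 : g.2.1 ^ 2 ≤ g.1 ^ 2 := sq_le_sq.2 (by rwa [abs_of_pos hp])
  have h4 : g.1 * g.1 ≤ g.1 * g.2.2 := mul_le_mul_of_nonneg_left h2 hp.le
  nlinarith

/-- a primitive form represents a number prime to `M` -/
lemma exists_coprime {f : Fm} (hf : Gd t c f) (hD : t ^ 2 < 4 * c) {M : ℕ} (hM : 1 ≤ M) :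
    ∃ g, Eqv f g ∧ Gd t c g ∧ Nat.Coprime g.1.toNat M := by
  classical
  set Q : ℕ := ∏ p ∈ M.primeFactors.filter (fun p : ℕ => (p : ℤ) ∣ f.1 ∧ ¬ (p : ℤ) ∣ f.2.2), p with hQ
  set R : ℕ := ∏ p ∈ M.primeFactors.filter (fun p : ℕ => ¬ (p : ℤ) ∣ f.1), p with hR
  have hQp : ∀ l : ℕ, l.Prime → l ∣ Q → (l : ℤ) ∣ f.1 ∧ ¬ (l : ℤ) ∣ f.2.2 := by
    intro l hl h
    rw [hQ, Prime.dvd_finsetProd_iff hl.prime] at h
    obtain ⟨p, hp, hlp⟩ := h
    rw [Finset.mem_filter, Nat.mem_primeFactors] at hp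
    have := (Nat.prime_dvd_prime_iff_eq hl hp.1.1).1 hlp
    rw [this]
    exact hp.2
  have hRp : ∀ l : ℕ, l.Prime → l ∣ R → ¬ (l : ℤ) ∣ f.1 := by
    intro l hl h
    rw [hR, Prime.dvd_finsetProd_iff hl.prime] at h
    obtain ⟨p, hp, hlp⟩ := h
    rw [Finset.mem_filter, Nat.mem_primeFactors] at hp
    have := (Nat.prime_dvd_prime_iff_eq hl hp.1.1).1 hlp
    rw [this]
    exact hp.2
  have hcop : Nat.Coprime Q R := by
    rw [Nat.coprime_iff_gcd_eq_one]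
    by_contra hne
    obtain ⟨l, hl, hlg⟩ := Nat.exists_prime_and_dvd hne
    exact hRp l hl (hlg.trans (Nat.gcd_dvd_right _ _)) (hQp l hl (hlg.trans (Nat.gcd_dvd_left _ _))).1
  have hIc : IsCoprime (Q : ℤ) (R : ℤ) := Nat.isCoprime_iff_coprime.2 hcop
  obtain ⟨x, y, hxy⟩ := hIc
  -- x * Q + y * R = 1
  have hfg : Eqv f (act Q R (-y) x f) := ⟨Q, R, -y, x, by linear_combination hxy, rfl⟩
  refine ⟨_, hfg, hfg.gd hD hf, ?_⟩
  have hpos := (hfg.gd hD hf).pos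
  rw [Nat.coprime_iff_gcd_eq_one]
  by_contra hne
  obtain ⟨l, hl, hlg⟩ := Nat.exists_prime_and_dvd hne
  have hl1 : (l : ℤ) ∣ (act Q R (-y) x f).1 := by
    have h1 := hlg.trans (Nat.gcd_dvd_left _ _)
    have h2 : (l : ℤ) ∣ ((act Q R (-y) x f).1.toNat : ℤ) := by exact_mod_cast h1
    rwa [Int.toNat_of_nonneg hpos.le] at h2
  have hlM : l ∣ M := hlg.trans (Nat.gcd_dvd_right _ _)
  have hlf : l ∈ M.primeFactors := Nat.mem_primeFactors.2 ⟨hl, hlM, by omega⟩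
  have hlZ : Prime (l : ℤ) := Nat.prime_iff_prime_int.1 hl
  simp only [act] at hl1
  by_cases hA : (l : ℤ) ∣ f.1
  · have hlR : ¬ (l : ℤ) ∣ R := by
      intro h
      exact hRp l hl (by exact_mod_cast h) hA
    by_cases hC : (l : ℤ) ∣ f.2.2
    · have hB : ¬ (l : ℤ) ∣ f.2.1 := by
        intro hB
        have := hf.pf l hA hC hB
        exact hlZ.not_isUnit this
      have hlQ : ¬ (l : ℤ) ∣ Q := by
        intro h
        exact (hQp l hl (by exact_mod_cast h)).2 hC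
      have h1 : (l : ℤ) ∣ f.2.1 * (Q * R) := by
        have h2 := dvd_sub (dvd_sub hl1 (hA.mul_right ((Q : ℤ) ^ 2))) (hC.mul_right ((R : ℤ) ^ 2))
        have e : f.1 * (Q : ℤ) ^ 2 + f.2.1 * (Q * R) + f.2.2 * (R : ℤ) ^ 2 - f.1 * (Q : ℤ) ^ 2 -
          f.2.2 * (R : ℤ) ^ 2 = f.2.1 * (Q * R) := by ring
        rwa [e] at h2
      rcases hlZ.dvd_or_dvd h1 with h | h
      · exact hB h
      · rcases hlZ.dvd_or_dvd h with h | h
        · exact hlQ h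
        · exact hlR h
    · have hlQ : (l : ℤ) ∣ Q := by
        have : l ∣ Q := Finset.dvd_prod_of_mem (fun p => p)
          (Finset.mem_filter.2 ⟨hlf, hA, hC⟩)
        exact_mod_cast this
      have h1 : (l : ℤ) ∣ f.2.2 * (R : ℤ) ^ 2 := by
        have h2 := dvd_sub (dvd_sub hl1 (hA.mul_right ((Q : ℤ) ^ 2)))
          (hlQ.mul_right (f.2.1 * R))
        have e : f.1 * (Q : ℤ) ^ 2 + f.2.1 * (Q * R) + f.2.2 * (R : ℤ) ^ 2 - f.1 * (Q : ℤ) ^ 2 -
          (Q : ℤ) * (f.2.1 * R) = f.2.2 * (R : ℤ) ^ 2 := by ring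
        rwa [e] at h2
      rcases hlZ.dvd_or_dvd h1 with h | h
      · exact hC h
      · exact hlR (hlZ.dvd_of_dvd_pow h)
  · have hlR : (l : ℤ) ∣ R := by
      have : l ∣ R := Finset.dvd_prod_of_mem (fun p => p)
        (Finset.mem_filter.2 ⟨hlf, hA⟩)
      exact_mod_cast this
    have hlQ : ¬ (l : ℤ) ∣ Q := by
      intro h
      exact hA (hQp l hl (by exact_mod_cast h)).1
    have h1 : (l : ℤ) ∣ f.1 * (Q : ℤ) ^ 2 := by
      have h2 := dvd_sub hl1 (hlR.mul_right (f.2.1 * Q + f.2.2 * R))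
      have e : f.1 * (Q : ℤ) ^ 2 + f.2.1 * (Q * R) + f.2.2 * (R : ℤ) ^ 2 -
        (R : ℤ) * (f.2.1 * Q + f.2.2 * R) = f.1 * (Q : ℤ) ^ 2 := by ring
      rwa [e] at h2
    rcases hlZ.dvd_or_dvd h1 with h | h
    · exact hA h
    · exact hlQ (hlZ.dvd_of_dvd_pow h)

end Pool.Agent.N31.LC
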