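import Pool.Agent.N912.LC.Stm
import Pool.Agent.W78.GA.Basic
import Pool.Agent.N31.LC.Forms

/-!
LC6a: bases of the ideals `{z : lat m r₀ z}` and quadratic forms.
-/

set_option autoImplicit false

namespace Pool.Agent.N31.LC

open Finset
open Pool.Agent.W78.GA
open Pool.Agent.N912.LC
open Pool.Agent.N912.ED.W78EG (pp uc)

variable {t c : ℤ}

/-- the form of the ideal -/
def Fx (t c : ℤ) (x : ℕ × ℤ) : Fm := ((x.1 : ℤ), t - 2 * x.2, (x.2 ^ 2 - t * x.2 + c) / x.1)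

lemma Fx_gd {x : ℕ × ℤ} (h : Iv t c x.1 x.2) : Gd t c (Fx t c x) := by
  obtain ⟨C, hC⟩ := h.dvd
  have hm : (0 : ℤ) < x.1 := by exact_mod_cast h.pos
  have e : (x.2 ^ 2 - t * x.2 + c) / x.1 = C := by
    rw [hC]; exact Int.mul_ediv_cancel_left _ hm.ne'
  refine ⟨hm, ?_, ?_⟩
  · show (t - 2 * x.2) ^ 2 - 4 * (x.1 : ℤ) * ((x.2 ^ 2 - t * x.2 + c) / x.1) = t ^ 2 - 4 * c
    rw [e]; linear_combination 4 * hC
  · intro g h1 h2 h3
    refine h.inv g h1 ?_ h2
    have h4 : g ∣ t - 2 * x.2 := h3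
    have : 2 * x.2 - t = -(t - 2 * x.2) := by ring
    rw [this]
    exact (dvd_neg).2 h4

lemma exists_x {f : Fm} (hf : Gd t c f) : ∃ x : ℕ × ℤ, Iv t c x.1 x.2 ∧ Fx t c x = f := by
  obtain ⟨r, hr⟩ : ∃ r, t - f.2.1 = 2 * r := by
    rcases Int.even_or_odd (t - f.2.1) with ⟨k, hk⟩ | ⟨k, hk⟩
    · exact ⟨k, by rw [hk]; ring⟩
    · exfalso
      have hd := hf.disc
      have ht : t = f.2.1 + 2 * k + 1 := by linarith
      have h1 : 2 * (2 * k * f.2.1 + 2 * k ^ 2 + 2 * k + f.2.1) + 1 = 4 * (c - f.1 * f.2.2) := by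
        rw [ht] at hd
        linear_combination -hd
      omega
  have hm : ((f.1.toNat : ℕ) : ℤ) = f.1 := Int.toNat_of_nonneg hf.pos.le
  have hB : f.2.1 = t - 2 * r := by linarith
  have hC : r ^ 2 - t * r + c = f.1 * f.2.2 := by
    have hd := hf.disc
    rw [hB] at hd
    have : 4 * (r ^ 2 - t * r + c) = 4 * (f.1 * f.2.2) := by linear_combination hd
    linarith
  have hdiv : (r ^ 2 - t * r + c) / f.1 = f.2.2 := by
    rw [hC]; exact Int.mul_ediv_cancel_left _ hf.pos.ne'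
  refine ⟨(f.1.toNat, r), ⟨?_, ?_, ?_⟩, ?_⟩
  · have := hf.pos
    show 1 ≤ f.1.toNat
    omega
  · show ((f.1.toNat : ℕ) : ℤ) ∣ r ^ 2 - t * r + c
    rw [hm, hC]; exact dvd_mul_right _ _
  · intro g h1 h2 h3
    have h1' : g ∣ ((f.1.toNat : ℕ) : ℤ) := h1
    have h2' : g ∣ 2 * r - t := h2
    have h3' : g ∣ (r ^ 2 - t * r + c) / ((f.1.toNat : ℕ) : ℤ) := h3
    rw [hm] at h1' h3'
    rw [hdiv] at h3'
    refine hf.pf g h1' h3' ?_
    rw [hB, show t - 2 * r = -(2 * r - t) by ring]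
    exact (dvd_neg).2 h2'
  · refine fm_ext hm hB.symm ?_
    show (r ^ 2 - t * r + c) / ((f.1.toNat : ℕ) : ℤ) = f.2.2
    rw [hm, hdiv]

/-! ### vectors of the ideal -/

lemma lat_coord {m : ℕ} {r : ℤ} {v : Qd t c} (h : lat m r v) :
    ∃ a : ℤ, v.re = m * a - r * v.im := by
  obtain ⟨a, ha⟩ := h
  exact ⟨a, by linarith⟩

lemma dt_dvd {m : ℕ} {r : ℤ} {v w : Qd t c} (hv : lat m r v) (hw : lat m r w) :
    (m : ℤ) ∣ dt v w := by
  obtain ⟨a, ha⟩ := lat_coord hv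
  obtain ⟨b, hb⟩ := lat_coord hw
  refine ⟨a * w.im - b * v.im, ?_⟩
  unfold dt
  rw [ha, hb]; ring

lemma ip_dvd {m : ℕ} {r : ℤ} (h : (m : ℤ) ∣ r ^ 2 - t * r + c) {v w : Qd t c} (hv : lat m r v)
    (hw : lat m r w) : (m : ℤ) ∣ ip v w := by
  obtain ⟨a, ha⟩ := lat_coord hv
  obtain ⟨b, hb⟩ := lat_coord hw
  obtain ⟨C, hC⟩ := h
  refine ⟨m * a * b - r * a * w.im - r * v.im * b + t * v.im * b + C * v.im * w.im, ?_⟩
  unfold ip
  rw [ha, hb]
  linear_combination (v.im * w.im) * hC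

lemma nm_ip (hD : t ^ 2 < 4 * c) (v : Qd t c) : (nm v : ℤ) = ip v v := by
  rw [nm_cast hD]
  unfold ip
  ring

lemma star_mul_eq (v w : Qd t c) : star v * w = ⟨ip v w, dt v w⟩ := by
  apply QuadraticAlgebra.ext
  · simp only [QuadraticAlgebra.re_mul, QuadraticAlgebra.re_star, QuadraticAlgebra.im_star, ip]
    ring
  · simp only [QuadraticAlgebra.im_mul, QuadraticAlgebra.re_star, QuadraticAlgebra.im_star, dt]
    ring

lemma exists_al {m : ℕ} {r : ℤ} (h : (m : ℤ) ∣ r ^ 2 - t * r + c) {v w : Qd t c}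
    (hv : lat m r v) (hw : lat m r w) : ∃ α : Qd t c, star v * w = (m : Qd t c) * α := by
  obtain ⟨a, ha⟩ := ip_dvd h hv hw
  obtain ⟨b, hb⟩ := dt_dvd hv hw
  refine ⟨⟨a, b⟩, ?_⟩
  rw [star_mul_eq]
  apply QuadraticAlgebra.ext
  · simp only [QuadraticAlgebra.re_mul, QuadraticAlgebra.re_natCast, QuadraticAlgebra.im_natCast]
    rw [ha]; ring
  · simp only [QuadraticAlgebra.im_mul, QuadraticAlgebra.re_natCast, QuadraticAlgebra.im_natCast]
    rw [hb]; ring

lemma nat_cancel {m : ℕ} (hm : 1 ≤ m) {a b : Qd t c} (h : (m : Qd t c) * a = m * b) : a = b := by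
  have hm' : (m : ℤ) ≠ 0 := by exact_mod_cast (by omega : m ≠ 0)
  have h1 := congrArg QuadraticAlgebra.re h
  have h2 := congrArg QuadraticAlgebra.im h
  simp only [QuadraticAlgebra.re_mul, QuadraticAlgebra.im_mul, QuadraticAlgebra.re_natCast,
    QuadraticAlgebra.im_natCast, mul_zero, zero_mul, add_zero] at h1 h2
  exact QuadraticAlgebra.ext (mul_left_cancel₀ hm' h1) (mul_left_cancel₀ hm' h2)

/-- from bases to forms -/
lemma toForm (hD : t ^ 2 < 4 * c) {x : ℕ × ℤ} (h : Iv t c x.1 x.2) {v w : Qd t c}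
    (hv : lat x.1 x.2 v) (hw : lat x.1 x.2 w) (h1 : dt v w = x.1) {d e : ℕ} {n : ℤ}
    (h2 : nm v = x.1 * d) (h3 : nm w = x.1 * e) (h4 : ip v w = x.1 * n) :
    Eqv (Fx t c x) ((d : ℤ), 2 * n + t, (e : ℤ)) := by
  obtain ⟨C, hC⟩ := h.dvd
  have hm : (0 : ℤ) < x.1 := by exact_mod_cast h.pos
  have e0 : (x.2 ^ 2 - t * x.2 + c) / x.1 = C := by
    rw [hC]; exact Int.mul_ediv_cancel_left _ hm.ne'
  obtain ⟨a, ha⟩ := lat_coord hv
  obtain ⟨b, hb⟩ := lat_coord hw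
  have h2' : (nm v : ℤ) = x.1 * d := by exact_mod_cast h2
  have h3' : (nm w : ℤ) = x.1 * e := by exact_mod_cast h3
  rw [nm_cast hD, ha] at h2'
  rw [nm_cast hD, hb] at h3'
  unfold dt at h1
  rw [ha, hb] at h1
  unfold ip at h4
  rw [ha, hb] at h4
  have hdet : a * w.im - v.im * b = 1 := by
    apply mul_left_cancel₀ hm.ne'
    linear_combination h1
  refine ⟨a, v.im, b, w.im, hdet, fm_ext ?_ ?_ ?_⟩
  · simp only [act, Fx]
    rw [e0]
    apply mul_left_cancel₀ hm.ne'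
    linear_combination -h2' + v.im ^ 2 * hC
  · simp only [act, Fx]
    rw [e0]
    apply mul_left_cancel₀ hm.ne'
    linear_combination -2 * h4 + 2 * v.im * w.im * hC - t * h1
  · simp only [act, Fx]
    rw [e0]
    apply mul_left_cancel₀ hm.ne'
    linear_combination -h3' + w.im ^ 2 * hC

/-- from forms to bases -/
lemma ofForm (hD : t ^ 2 < 4 * c) {x : ℕ × ℤ} (h : Iv t c x.1 x.2) {d e : ℕ} {n : ℤ}
    (hf : Eqv (Fx t c x) ((d : ℤ), 2 * n + t, (e : ℤ))) :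
    ∃ v w : Qd t c, lat x.1 x.2 v ∧ lat x.1 x.2 w ∧ dt v w = x.1 ∧ nm v = x.1 * d ∧
      nm w = x.1 * e ∧ ip v w = x.1 * n := by
  obtain ⟨C, hC⟩ := h.dvd
  have hm : (0 : ℤ) < x.1 := by exact_mod_cast h.pos
  have e0 : (x.2 ^ 2 - t * x.2 + c) / x.1 = C := by
    rw [hC]; exact Int.mul_ediv_cancel_left _ hm.ne'
  obtain ⟨a, b, a', b', hdet, hf⟩ := hf
  have f1 := congrArg (fun z : Fm => z.1) hf
  have f2 := congrArg (fun z : Fm => z.2.1) hf
  have f3 := congrArg (fun z : Fm => z.2.2) hf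
  simp only [act, Fx] at f1 f2 f3
  rw [e0] at f1 f2 f3
  have hdt : dt (⟨x.1 * a - x.2 * b, b⟩ : Qd t c) ⟨x.1 * a' - x.2 * b', b'⟩ = x.1 := by
    unfold dt
    linear_combination (x.1 : ℤ) * hdet
  refine ⟨⟨x.1 * a - x.2 * b, b⟩, ⟨x.1 * a' - x.2 * b', b'⟩, ⟨a, by simp⟩, ⟨a', by simp⟩, hdt,
    ?_, ?_, ?_⟩
  · have : (nm (⟨x.1 * a - x.2 * b, b⟩ : Qd t c) : ℤ) = x.1 * d := by
      rw [nm_cast hD]
      linear_combination b ^ 2 * hC - (x.1 : ℤ) * f1
    exact_mod_cast this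
  · have : (nm (⟨x.1 * a' - x.2 * b', b'⟩ : Qd t c) : ℤ) = x.1 * e := by
      rw [nm_cast hD]
      linear_combination b' ^ 2 * hC - (x.1 : ℤ) * f3
    exact_mod_cast this
  · have h2 : 2 * ip (⟨x.1 * a - x.2 * b, b⟩ : Qd t c) ⟨x.1 * a' - x.2 * b', b'⟩ =
        2 * (x.1 * n) := by
      unfold dt at hdt
      unfold ip
      simp only at hdt ⊢
      linear_combination 2 * b * b' * hC - (x.1 : ℤ) * f2 - t * hdt
    linarith

/-! ### units -/

lemma bez3 {d e k : ℤ} (h : ∀ g : ℤ, g ∣ d → g ∣ e → g ∣ k → IsUnit g) :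
    ∃ x y z : ℤ, x * d + y * e + z * k = 1 := by
  have h1 := Int.gcd_eq_gcd_ab d e
  have h2 := Int.gcd_eq_gcd_ab (Int.gcd d e : ℤ) k
  set g : ℕ := Int.gcd (Int.gcd d e : ℤ) k with hg
  have hu : IsUnit (g : ℤ) := by
    refine h _ ?_ ?_ ?_
    · exact (Int.gcd_dvd_left _ _).trans (Int.gcd_dvd_left _ _)
    · exact (Int.gcd_dvd_left _ _).trans (Int.gcd_dvd_right _ _)
    · exact Int.gcd_dvd_right _ _
  have hg1 : (g : ℤ) = 1 := by
    rcases Int.isUnit_iff.1 hu with h | h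
    · exact h
    · have : (0 : ℤ) ≤ g := by positivity
      omega
  rw [hg1] at h2
  refine ⟨Int.gcdA d e * Int.gcdA (Int.gcd d e : ℤ) k, Int.gcdB d e * Int.gcdA (Int.gcd d e : ℤ) k,
    Int.gcdB (Int.gcd d e : ℤ) k, ?_⟩
  linear_combination -h2 - Int.gcdA (Int.gcd d e : ℤ) k * h1

lemma exists_unit (hD : t ^ 2 < 4 * c) {m : ℕ} {r : ℤ} (hm : 1 ≤ m)
    (hdvd : (m : ℤ) ∣ r ^ 2 - t * r + c) {v w v0 w0 : Qd t c} (hv : lat m r v) (hw : lat m r w)
    (hv0 : lat m r v0) (hw0 : lat m r w0) {d e : ℕ} {n : ℤ}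
    (hpf : ∀ g : ℤ, g ∣ d → g ∣ e → g ∣ 2 * n + t → IsUnit g) (hd : 1 ≤ d)
    (h1 : dt v w = m) (h2 : dt v0 w0 = m) (h3 : ip v w = m * n) (h4 : ip v0 w0 = m * n)
    (h5 : nm v = m * d) (h6 : nm v0 = m * d) (h7 : nm w = m * e) (h8 : nm w0 = m * e) :
    ∃ ε : Qd t c, nm ε = 1 ∧ v = ε * v0 ∧ w = ε * w0 := by
  obtain ⟨x, y, z, hxyz⟩ := bez3 hpf
  have Bez : (x : Qd t c) * d + y * e + z * (2 * n + t) = 1 := by
    have h0 := congrArg (fun k : ℤ => (k : Qd t c)) hxyz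
    push_cast at h0
    exact h0
  have H1 : star v * w = star v0 * w0 := by
    rw [star_mul_eq, star_mul_eq, h1, h2, h3, h4]
  have H1' : v * star w = v0 * star w0 := by
    have := congrArg star H1
    rw [star_mul, star_mul, star_star, star_star] at this
    rw [mul_comm v, mul_comm v0]
    exact this
  have Nv : star v * v = (m : Qd t c) * d := by
    rw [star_mul_self' hD, h5]; push_cast; rfl
  have Nv0 : star v0 * v0 = (m : Qd t c) * d := by
    rw [star_mul_self' hD, h6]; push_cast; rfl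
  have Nw : star w * w = (m : Qd t c) * e := by
    rw [star_mul_self' hD, h7]; push_cast; rfl
  have Nw0 : star w0 * w0 = (m : Qd t c) * e := by
    rw [star_mul_self' hD, h8]; push_cast; rfl
  have H3 : star v * w + v * star w = (m : Qd t c) * (2 * n + t) := by
    have e1 : v * star w = star (star v * w) := by rw [star_mul, star_star, mul_comm]
    rw [e1, star_mul_eq, h1, h3]
    apply QuadraticAlgebra.ext
    · simp only [QuadraticAlgebra.re_add, QuadraticAlgebra.re_star, QuadraticAlgebra.re_mul,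
        QuadraticAlgebra.re_natCast, QuadraticAlgebra.im_natCast, QuadraticAlgebra.re_intCast,
        QuadraticAlgebra.im_add, QuadraticAlgebra.im_mul, QuadraticAlgebra.im_intCast,
        QuadraticAlgebra.re_ofNat, QuadraticAlgebra.im_ofNat, Int.cast_id]
      ring
    · simp only [QuadraticAlgebra.re_add, QuadraticAlgebra.im_star, QuadraticAlgebra.re_mul,
        QuadraticAlgebra.re_natCast, QuadraticAlgebra.im_natCast, QuadraticAlgebra.re_intCast,
        QuadraticAlgebra.im_add, QuadraticAlgebra.im_mul, QuadraticAlgebra.im_intCast,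
        QuadraticAlgebra.re_ofNat, QuadraticAlgebra.im_ofNat, Int.cast_id]
      ring
  obtain ⟨α, hα⟩ := exists_al hdvd hv0 hv
  obtain ⟨α', hα'⟩ := exists_al hdvd hw0 hw
  obtain ⟨β, hβ⟩ := exists_al hdvd hv0 hw
  obtain ⟨β', hβ'⟩ := exists_al hdvd hw0 hv
  have k1 : v = (x * α + y * α' + z * (β + β')) * v0 := by
    apply nat_cancel hm
    have e1 : (m : Qd t c) * ((x * α + y * α' + z * (β + β')) * v0) =
        x * (star v0 * v) * v0 + y * (star w0 * w) * v0 +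
          z * (star v0 * w + star w0 * v) * v0 := by
      rw [hα, hα', hβ, hβ']; ring
    rw [e1]
    linear_combination -(x * v * Nv0 - y * w * H1' + y * v * Nw + z * w * Nv0 - z * w * Nv -
      z * v * H1' + z * v * H3 + m * v * Bez)
  have k2 : w = (x * α + y * α' + z * (β + β')) * w0 := by
    apply nat_cancel hm
    have e1 : (m : Qd t c) * ((x * α + y * α' + z * (β + β')) * w0) =
        x * (star v0 * v) * w0 + y * (star w0 * w) * w0 +
          z * (star v0 * w + star w0 * v) * w0 := by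
      rw [hα, hα', hβ, hβ']; ring
    rw [e1]
    linear_combination -(-x * v * H1 + x * w * Nv + y * w * Nw0 - z * w * H1 + z * v * Nw0 -
      z * v * Nw + z * w * H3 + m * w * Bez)
  refine ⟨_, ?_, k1, k2⟩
  have k3 := congrArg nm k1
  rw [nm_mul, h5, h6] at k3
  have k4 : 0 < m * d := by positivity
  exact (Nat.eq_of_mul_eq_mul_right k4 (by rw [one_mul]; exact k3)).symm

lemma lat_mul {m : ℕ} {r : ℤ} (hdvd : (m : ℤ) ∣ r ^ 2 - t * r + c) (ε : Qd t c) {v : Qd t c}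
    (hv : lat m r v) : lat m r (ε * v) := by
  obtain ⟨a, ha⟩ := lat_coord hv
  obtain ⟨C, hC⟩ := hdvd
  refine ⟨ε.re * a + ε.im * (r * a - C * v.im), ?_⟩
  simp only [QuadraticAlgebra.re_mul, QuadraticAlgebra.im_mul]
  rw [ha]
  linear_combination (-ε.im * v.im) * hC

lemma dt_mul (hD : t ^ 2 < 4 * c) (ε v w : Qd t c) : dt (ε * v) (ε * w) = nm ε * dt v w := by
  rw [nm_cast hD]
  unfold dt
  simp only [QuadraticAlgebra.re_mul, QuadraticAlgebra.im_mul]
  ring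

lemma ip_mul (hD : t ^ 2 < 4 * c) (ε v w : Qd t c) : ip (ε * v) (ε * w) = nm ε * ip v w := by
  rw [nm_cast hD]
  unfold ip
  simp only [QuadraticAlgebra.re_mul, QuadraticAlgebra.im_mul]
  ring

end Pool.Agent.N31.LC
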